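import Pool.Agent.P.MP_7f6fde_gt.Main
import Pool.Agent.P.MP_7f6fde_gt.Ex.Homfly
import Pool.Agent.P.MP_7f6fde_gt.Ex.Kauffman

namespace Pool.Agent.Results.MP_7f6fde_gt.Unbounded

open Pool.Agent.P.MP_7f6fde_gt

/-- The HOMFLYPT polynomial and Kauffman's regular isotopy invariant exist, and for every `n > 0`
there is a non-trivial knot whose HOMFLYPT polynomial has `a`-spread `8 n` and whose Kauffman
polynomial has `a`-spread `7 n`. -/
theorem result :
    (∃ (P : List (Sl Bool) → LL) (L : List (Sl Unit) → LL), IsHomfly P ∧ IsKauffman L) ∧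
    ∀ n : ℕ, 0 < n → ∃ D : List (Sl Bool), Closed not D ∧ comps [] D = 1 ∧
      (∀ o, ¬ Isotopic D [Sl.cup 0 o, Sl.cap 0]) ∧
      ∀ (P : List (Sl Bool) → LL) (L : List (Sl Unit) → LL), IsHomfly P → IsKauffman L →
        aSpread (P D) = 8 * n ∧ aSpread (kauffmanF L D) = 7 * n := by
  obtain ⟨P₀, hP₀⟩ := Ex.exists_homfly
  obtain ⟨L₀, hL₀⟩ := Ex.exists_kauffman
  exact ⟨⟨P₀, L₀, hP₀, hL₀⟩, fun n hn => ⟨knotN n, closed_knotN n, comps_knotN n,
    nontrivial_knotN hP₀ n hn, fun P L hP hL => ⟨spread_homfly hP n, spread_kauffman hL n⟩⟩⟩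

end Pool.Agent.Results.MP_7f6fde_gt.Unbounded
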